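import Pool.Agent.H17.BO.TargetsG

/-!
# (FS) sums over the places of an extension
-/

set_option autoImplicit false

namespace Pool.Agent.H70.BO.FS

open MvPolynomial SC Pool.Agent.H27.LV Pool.Agent.H17.VG Pool.Agent.H17.BO

theorem pf_FS (hFU : T_FU) (hOV : T_OV) : T_FS := by
  classical
  intro k K L _ _ _ _ _ _ _ _ _ _ _ htr f hf g hg
  have hov := fun w : DV k L => hOV k K L w
  have hfu := fun v : DV k K => hFU k K L htr v
  have hOver : ∀ (v : DV k K) (w : DV k L), ram v w ≠ 0 → ∃ e, Over v w e := by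
    intro v w h
    by_contra hcon
    apply h
    unfold ram
    rw [dif_neg hcon]
  have huniq : ∀ (v v' : DV k K) (w : DV k L), ram v w ≠ 0 → ram v' w ≠ 0 → v = v' := by
    intro v v' w h h'
    obtain ⟨e, he⟩ := hOver v w h
    obtain ⟨e', he'⟩ := hOver v' w h'
    exact (hov w).2.2 v v' e e' he he'
  let W : DV k K → Finset (DV k L) := fun v => (hfu v).1.toFinset
  have hW : ∀ v w, w ∈ W v ↔ ram v w ≠ 0 := fun v w => by
    simp only [W, Set.Finite.mem_toFinset, Set.mem_setOf_eq]
  have hsub : {w | g w ≠ 0} ⊆ ((hf.toFinset.biUnion W : Finset (DV k L)) : Set (DV k L)) := by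
    intro w hw
    obtain ⟨⟨v, hv, hv0⟩, -, -⟩ := hov w
    rw [Finset.mem_coe, Finset.mem_biUnion]
    have h1 := hg v w hv0.ne'
    refine ⟨v, ?_, (hW v w).2 hv0.ne'⟩
    rw [Set.Finite.mem_toFinset]
    intro h2
    apply hw
    rw [h1, h2, mul_zero]
  refine ⟨(Finset.finite_toSet _).subset hsub, ?_⟩
  have h1 : ∑ᶠ w, g w = ∑ w ∈ hf.toFinset.biUnion W, g w :=
    finsum_eq_sum_of_support_subset _ hsub
  have h2 : ∑ᶠ v, f v = ∑ v ∈ hf.toFinset, f v :=
    finsum_eq_sum_of_support_subset _ (by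
      intro v hv
      rw [Finset.mem_coe, Set.Finite.mem_toFinset]
      exact hv)
  rw [h1, h2, Finset.sum_biUnion, Finset.mul_sum]
  · refine Finset.sum_congr rfl fun v _ => ?_
    have h3 : ∑ w ∈ W v, ram v w = Module.finrank K L := by
      rw [← (hfu v).2]
      refine (finsum_eq_sum_of_support_subset _ ?_).symm
      intro w hw
      rw [Finset.mem_coe, hW]
      exact hw
    have h4 : ∑ w ∈ W v, g w = ∑ w ∈ W v, (ram v w : ℤ) * f v :=
      Finset.sum_congr rfl fun w hw => hg v w ((hW v w).1 hw)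
    rw [h4, ← Finset.sum_mul, ← h3]
    push_cast
    rfl
  · intro v _ v' _ hne
    change Disjoint (W v) (W v')
    rw [Finset.disjoint_left]
    intro w hw hw'
    exact hne (huniq v v' w ((hW v w).1 hw) ((hW v' w).1 hw'))

end Pool.Agent.H70.BO.FS
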