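import Pool.Agent.H17.BO.TargetsG
import Pool.Agent.H27.LV.Curve

/-!
# (GDR) rules for `GD`
-/

set_option autoImplicit false

namespace Pool.Agent.H70.BO.GDR

open MvPolynomial SC Pool.Agent.H27.LV Pool.Agent.H17.VG Pool.Agent.H17.BO

section

variable {k K L : Type} [Field k] [Field K] [Field L] [Algebra k K] [Algebra k L] [Algebra K L]

theorem D_aeval (D : Derivation k K K) (D' : Derivation k L L)
    (hext : ∀ z : K, D' (algebraMap K L z) = algebraMap K L (D z)) (θ : L) (Y : Polynomial K) :
    D' (Polynomial.aeval θ Y) = (Y.sum fun i a => algebraMap K L (D a) * θ ^ i) +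
      Polynomial.aeval θ (Polynomial.derivative Y) * D' θ := by
  induction Y using Polynomial.induction_on' with
  | add p q hp hq =>
    rw [map_add, map_add, hp, hq, Polynomial.derivative_add, map_add, Polynomial.sum_add_index]
    · ring
    · intro i
      rw [map_zero, map_zero, zero_mul]
    · intro i a b
      rw [map_add, map_add, add_mul]
  | monomial n a =>
    rw [Polynomial.aeval_monomial, Derivation.leibniz, hext, Derivation.leibniz_pow,
      Polynomial.sum_monomial_index, Polynomial.derivative_monomial, Polynomial.aeval_monomial]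
    · simp only [smul_eq_mul, nsmul_eq_mul, map_mul, map_natCast]
      ring
    · rw [map_zero, map_zero, zero_mul]

theorem ge_pow' (w : DV k L) {θ : L} (h : ge w 0 θ) (i : ℕ) : ge w 0 (θ ^ i) := by
  induction i with
  | zero =>
    rw [pow_zero]
    exact ge_one w
  | succ i ih =>
    rw [pow_succ]
    simpa using ih.mul h

theorem ord_of_ge {v : DV k K} {a : K} (h : ge v 0 a) : 0 ≤ v.ord a := by
  rcases h with rfl | h
  · rw [v.ord_zero]
  · exact h

theorem ge_alg {v : DV k K} {w : DV k L} {e : ℕ} (hO : Over v w e) {t : ℤ} {a : K}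
    (h : ge v t a) : ge w (e * t) (algebraMap K L a) := by
  rcases h with rfl | h
  · rw [map_zero]
    exact ge_zero w _
  · right
    rw [hO.2]
    exact mul_le_mul_of_nonneg_left h (Int.natCast_nonneg _)

theorem ge_aeval {v : DV k K} {w : DV k L} {e : ℕ} (hO : Over v w e) {θ : L} (hθ : ge w 0 θ)
    (Y : Polynomial K) (hY : ∀ i, ge v 0 (Y.coeff i)) : ge w 0 (Polynomial.aeval θ Y) := by
  rw [Polynomial.aeval_eq_sum_range]
  refine ge_sum w _ _ _ fun i _ => ?_
  rw [Algebra.smul_def]
  have h1 := ge_alg hO (hY i)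
  have h2 := h1.mul (ge_pow' w hθ i)
  simpa using h2

theorem ge_der {v : DV k K} (Y : Polynomial K) (hY : ∀ i, ge v 0 (Y.coeff i)) (i : ℕ) :
    ge v 0 ((Polynomial.derivative Y).coeff i) := by
  rw [Polynomial.coeff_derivative]
  have h1 : ((i : K) + 1) = algebraMap k K ((i : k) + 1) := by
    rw [map_add, map_natCast, map_one]
  rw [h1]
  simpa using (hY (i + 1)).mul (ge_const v ((i : k) + 1))

end

theorem pf_GDR : T_GDR := by
  intro k K L _ _ _ _ _ _ _ _ _ _ _ htr D D' hD hext v w e hO
  have hdor := (dor k K htr D hD v).2.1.1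
  have hda : ∀ a : K, ge v 0 a → ge w (e * ordD v D) (algebraMap K L (D a)) := fun a ha =>
    ge_alg hO (hdor a (ord_of_ge ha))
  refine ⟨fun a ha => ⟨?_, ?_⟩, fun z z' hz hz' => ⟨⟨?_, ?_⟩, ⟨?_, ?_⟩, ⟨?_, ?_⟩⟩,
    fun z hz h0 hu => ⟨?_, ?_⟩, fun U θ hU hroot hθ hd0 hdu => ?_⟩
  · simpa using ge_alg hO ha
  · rw [hext]
    exact hda a ha
  · exact hz.1.add hz'.1
  · rw [map_add]
    exact hz.2.add hz'.2
  · simpa using hz.1.mul hz'.1
  · rw [Derivation.leibniz, smul_eq_mul, smul_eq_mul]
    have h1 := hz.1.mul hz'.2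
    have h2 := hz'.1.mul hz.2
    rw [zero_add] at h1 h2
    exact h1.add h2
  · exact hz.1.neg
  · rw [map_neg]
    exact hz.2.neg
  · right
    rw [w.ord_inv, hu, neg_zero]
  · rw [Derivation.leibniz_inv, smul_eq_mul]
    have h1 : ge w 0 (z⁻¹) := by
      right
      rw [w.ord_inv, hu, neg_zero]
    have h2 := (h1.mul h1).neg.mul hz.2
    have h3 : -(z⁻¹ * z⁻¹) = -z⁻¹ ^ 2 := by ring
    rw [h3] at h2
    simpa using h2
  · have hθ' : ge w 0 θ := Or.inr hθ
    have hsum : ∀ Y : Polynomial K, (∀ i, ge v 0 (Y.coeff i)) →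
        ge w (e * ordD v D) (Y.sum fun i a => algebraMap K L (D a) * θ ^ i) := by
      intro Y hY
      rw [Polynomial.sum_def]
      refine ge_sum w _ _ _ fun i _ => ?_
      have h1 := (hda _ (hY i)).mul (ge_pow' w hθ' i)
      rwa [add_zero] at h1
    rw [Polynomial.eval_map_algebraMap] at hroot
    rw [Polynomial.derivative_map, Polynomial.eval_map_algebraMap] at hd0 hdu
    have h1 := D_aeval D D' hext θ U
    rw [hroot, map_zero] at h1
    have h2 : D' θ = -((U.sum fun i a => algebraMap K L (D a) * θ ^ i) *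
        (Polynomial.aeval θ (Polynomial.derivative U))⁻¹) := by
      field_simp
      linear_combination -h1
    have h3 : ge w (e * ordD v D) (D' θ) := by
      rw [h2]
      have h4 : ge w 0 (Polynomial.aeval θ (Polynomial.derivative U))⁻¹ := by
        right
        rw [w.ord_inv, hdu, neg_zero]
      have h5 := ((hsum U hU).mul h4).neg
      rwa [add_zero] at h5
    refine ⟨⟨hθ', h3⟩, fun Y hY => ⟨ge_aeval hO hθ' Y hY, ?_⟩⟩
    rw [D_aeval D D' hext]
    have h6 := (ge_aeval hO hθ' _ (ge_der Y hY)).mul h3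
    rw [zero_add] at h6
    exact (hsum Y hY).add h6

end Pool.Agent.H70.BO.GDR
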