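import Pool.Agent.H17.BO.TargetsX

/-!
# (XC) there is a hypersurface which contains all points on exceptional conics
-/

set_option autoImplicit false

namespace Pool.Agent.H70.BO.XC

open MvPolynomial SC Pool.Agent.H27.LV Pool.Agent.H17.VG Pool.Agent.H17.BO

section Sub

variable {A B k : Type} [Field k] [CharZero k]

/-- substitution of constants -/
noncomputable def sub (c : A → k) (Ψ : MvPolynomial (A ⊕ B) ℚ) : MvPolynomial B k :=
  aeval (Sum.elim (fun a => (C (c a) : MvPolynomial B k)) X) Ψ

theorem sub_ne {c : A → k} (hc : AlgebraicIndependent ℚ c) {Ψ : MvPolynomial (A ⊕ B) ℚ}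
    (hΨ : Ψ ≠ 0) : sub c Ψ ≠ 0 := by
  have h1 : AlgebraicIndependent ℚ (Sum.elim (X : B → MvPolynomial B k)
      (algebraMap k (MvPolynomial B k) ∘ c)) :=
    hc.sumElim_comp (algebraicIndependent_X B k)
  have h2 : AlgebraicIndependent ℚ (Sum.elim (fun a => (C (c a) : MvPolynomial B k)) X) := by
    have h3 := h1.comp Sum.swap Sum.swap_leftInverse.injective
    have h4 : (Sum.elim (X : B → MvPolynomial B k) (algebraMap k (MvPolynomial B k) ∘ c)) ∘
        Sum.swap = Sum.elim (fun a => (C (c a) : MvPolynomial B k)) X := by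
      funext i
      rcases i with i | i <;> rfl
    rwa [h4] at h3
  intro h3
  exact hΨ ((algebraicIndependent_iff.1 h2) Ψ h3)

theorem aeval_sub {L : Type} [Field L] [CharZero L] [Algebra k L] (c : A → k) (z : B → L)
    (Ψ : MvPolynomial (A ⊕ B) ℚ) :
    aeval z (sub c Ψ) = aeval (Sum.elim (fun a => algebraMap k L (c a)) z) Ψ := by
  unfold sub
  induction Ψ using MvPolynomial.induction_on with
  | C a =>
    rw [aeval_C, aeval_C]
    simp
  | add p q hp hq => rw [map_add, map_add, map_add, hp, hq]
  | mul_X p i hp =>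
    rw [map_mul, map_mul, map_mul, hp, aeval_X, aeval_X]
    congr 1
    rcases i with i | i
    · simp
    · simp

end Sub

section Hom

variable {k : Type} [Field k] {n : ℕ} (p : Fin (n + 1))

/-- homogenization -/
noncomputable def hmg (G : MvPolynomial {l : Fin (n + 1) // l ≠ p} k) :
    MvPolynomial (Fin (n + 1)) k :=
  ∑ j ∈ Finset.range ((rename Subtype.val G).totalDegree + 1),
    X p ^ ((rename Subtype.val G).totalDegree - j) * homogeneousComponent j (rename Subtype.val G)

theorem hmg_homog (G : MvPolynomial {l : Fin (n + 1) // l ≠ p} k) :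
    (hmg p G).IsHomogeneous (rename Subtype.val G : MvPolynomial (Fin (n + 1)) k).totalDegree := by
  unfold hmg
  refine IsHomogeneous.sum _ _ _ fun j hj => ?_
  have h1 := (isHomogeneous_X_pow (R := k) p ((rename Subtype.val G).totalDegree - j)).mul
    (homogeneousComponent_isHomogeneous j (rename Subtype.val G : MvPolynomial (Fin (n + 1)) k))
  have h2 : (rename Subtype.val G : MvPolynomial (Fin (n + 1)) k).totalDegree - j + j =
      (rename Subtype.val G : MvPolynomial (Fin (n + 1)) k).totalDegree := by
    rw [Finset.mem_range] at hj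
    omega
  rwa [h2] at h1

theorem aeval_hmg {R : Type} [CommRing R] [Algebra k R]
    (G : MvPolynomial {l : Fin (n + 1) // l ≠ p} k) (x : Fin (n + 1) → R) (hx : x p = 1) :
    aeval x (hmg p G) = aeval (fun l : {l : Fin (n + 1) // l ≠ p} => x l.1) G := by
  unfold hmg
  rw [map_sum]
  simp only [map_mul, map_pow, aeval_X, hx, one_pow, one_mul]
  rw [← map_sum, sum_homogeneousComponent, aeval_rename]
  rfl

theorem hmg_ne {G : MvPolynomial {l : Fin (n + 1) // l ≠ p} k} (hG : G ≠ 0) : hmg p G ≠ 0 := by
  classical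
  intro h0
  have h1 := aeval_hmg p G (fun l : Fin (n + 1) =>
    if h : l = p then (1 : MvPolynomial {l : Fin (n + 1) // l ≠ p} k) else X ⟨l, h⟩)
    (by simp)
  rw [h0, map_zero] at h1
  apply hG
  rw [h1]
  have h2 : (fun l : {l : Fin (n + 1) // l ≠ p} => if h : l.1 = p then
      (1 : MvPolynomial {l : Fin (n + 1) // l ≠ p} k) else X ⟨l.1, h⟩) = X := by
    funext l
    rw [dif_neg l.2]
  rw [h2, aeval_X_left_apply]

end Hom

section Ext

variable {K L : Type} [Field K] [Field L] (σ : K →+* L) {n : ℕ}

theorem linInd_map {v : Fin 3 → Fin (n + 1) → K} (hv : LinearIndependent K v) :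
    LinearIndependent L (fun i j => σ (v i j)) := by
  have h1 : Function.Injective (Matrix.toLin' (Matrix.of v).transpose) := by
    refine (injective_iff_map_eq_zero _).2 fun w hw => ?_
    rw [Matrix.toLin'_apply] at hw
    have h2 := (Fintype.linearIndependent_iff.1 hv) w (by
      funext j
      have h3 := congrFun hw j
      rw [Matrix.mulVec_transpose] at h3
      simp only [Matrix.vecMul, dotProduct, Matrix.of_apply, Pi.zero_apply] at h3
      rw [Finset.sum_apply]
      simpa using h3)
    funext i
    exact h2 i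
  obtain ⟨g, hg⟩ := (Matrix.toLin' (Matrix.of v).transpose).exists_leftInverse_of_injective
    (LinearMap.ker_eq_bot.2 h1)
  have h2 : LinearMap.toMatrix' g * (Matrix.of v).transpose = 1 := by
    have h3 := congrArg LinearMap.toMatrix' hg
    rw [LinearMap.toMatrix'_comp, LinearMap.toMatrix'_toLin', LinearMap.toMatrix'_id] at h3
    exact h3
  have h3 : ((LinearMap.toMatrix' g).map σ) * ((Matrix.of v).transpose.map σ) = 1 := by
    rw [← Matrix.map_mul, h2]
    exact Matrix.map_one σ (map_zero σ) (map_one σ)
  rw [Fintype.linearIndependent_iff]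
  intro w hw
  have h4 : ((Matrix.of v).transpose.map σ).mulVec w = 0 := by
    funext j
    have h5 := congrFun hw j
    rw [Finset.sum_apply] at h5
    simp only [Pi.smul_apply, smul_eq_mul, Pi.zero_apply] at h5
    simp only [Matrix.mulVec, dotProduct, Matrix.map_apply, Matrix.transpose_apply,
      Matrix.of_apply, Pi.zero_apply]
    rw [← h5]
    exact Finset.sum_congr rfl fun i _ => mul_comm _ _
  have h5 : w = 0 := by
    calc w = (1 : Matrix (Fin 3) (Fin 3) L).mulVec w := (Matrix.one_mulVec w).symm
      _ = 0 := by rw [← h3, ← Matrix.mulVec_mulVec, h4, Matrix.mulVec_zero]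
  intro i
  rw [h5]
  rfl

theorem res2_map (x b c : Fin (n + 1) → K) (G : MvPolynomial (Fin (n + 1)) K) :
    (res2 x b c G).map σ = res2 (fun i => σ (x i)) (fun i => σ (b i)) (fun i => σ (c i))
      (MvPolynomial.map σ G) := by
  unfold res2
  induction G using MvPolynomial.induction_on with
  | C a => simp
  | add p q hp hq => rw [map_add, Polynomial.map_add, hp, hq, map_add, map_add]
  | mul_X p i hp =>
    rw [map_mul, Polynomial.map_mul, hp, map_mul, map_mul, aeval_X, MvPolynomial.map_X, aeval_X]
    simp

theorem frm_map {k : Type} [Field k] {d : ℕ} (τ : k →+* L) (c : Mon (n + 1) d → k) :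
    MvPolynomial.map τ (frm c) = frm fun M => τ (c M) := by
  unfold frm
  rw [map_sum]
  refine Finset.sum_congr rfl fun f _ => ?_
  rw [map_mul, MvPolynomial.map_C]
  congr 1
  unfold mono
  simp

theorem eval_map' (x : Fin (n + 1) → K) (G : MvPolynomial (Fin (n + 1)) K) :
    eval (fun i => σ (x i)) (MvPolynomial.map σ G) = σ (eval x G) := by
  have h := eval₂_comp_left σ (RingHom.id K) x G
  rw [RingHom.comp_id] at h
  rw [eval_map]
  exact h.symm

end Ext

theorem pf_XC (hNFC : T_NFC) (hUEC : T_UEC) : T_XC := by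
  classical
  intro k _ _ n d c hd hc
  choose! Ψ hΨ0 hΨ using fun (a : ℕ × Fin (n + 1) × Fin (n + 1))
    (ha : a.2.2 ≠ a.2.1 ∧ a.1 + (2 * d - a.1) = 2 * d) =>
    hUEC n d a.1 (2 * d - a.1) a.2.1 a.2.2 ha.1 ha.2 hd
  let φ : ℕ × Fin (n + 1) × Fin (n + 1) → MvPolynomial (Fin (n + 1)) k := fun a =>
    hmg a.2.1 (sub c (Ψ a))
  let s : Finset (ℕ × Fin (n + 1) × Fin (n + 1)) :=
    (Finset.range (2 * d + 1) ×ˢ (Finset.univ ×ˢ Finset.univ)).filter fun a => a.2.2 ≠ a.2.1
  have hs : ∀ a, a ∈ s ↔ a.1 ≤ 2 * d ∧ a.2.2 ≠ a.2.1 := by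
    intro a
    simp only [s, Finset.mem_filter, Finset.mem_product, Finset.mem_range, Finset.mem_univ,
      and_true]
    omega
  refine ⟨∏ a ∈ s, φ a, ∑ a ∈ s,
    (rename Subtype.val (sub c (Ψ a)) : MvPolynomial (Fin (n + 1)) k).totalDegree, ?_, ?_, ?_⟩
  · rw [Finset.prod_ne_zero_iff]
    intro a ha
    rw [hs] at ha
    exact hmg_ne _ (sub_ne hc (hΨ0 a ⟨ha.2, by omega⟩))
  · exact IsHomogeneous.prod _ _ _ fun a _ => hmg_homog _ _
  · intro K _ _ x b c' p hp hli hT
    have hK : CharZero K := charZero_of_injective_algebraMap (algebraMap k K).injective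
    obtain ⟨b₁, c₁, q, hqp, hbp, hbq, hli₁, α, β, i, j, hij, hres⟩ :=
      hNFC K n d (up K (frm c)) x b c' p ((frm_homog c).map _) hp hli hT
    have hL : CharZero (AlgebraicClosure K) :=
      charZero_of_injective_algebraMap (algebraMap K (AlgebraicClosure K)).injective
    obtain rfl : j = 2 * d - i := by omega
    have hmap : MvPolynomial.map (algebraMap K (AlgebraicClosure K)) (up K (frm c)) =
        frm fun M => algebraMap k (AlgebraicClosure K) (c M) := by
      unfold up
      rw [MvPolynomial.map_map, ← IsScalarTower.algebraMap_eq, frm_map]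
    have hli₂ : LinearIndependent (AlgebraicClosure K)
        ![fun l => algebraMap K (AlgebraicClosure K) (x l),
          fun l => algebraMap K (AlgebraicClosure K) (b₁ l),
          fun l => algebraMap K (AlgebraicClosure K) (c₁ l)] := by
      have h1 := linInd_map (algebraMap K (AlgebraicClosure K)) hli₁
      have h2 : (fun (i : Fin 3) (j : Fin (n + 1)) => algebraMap K (AlgebraicClosure K)
          ((![x, b₁, c₁] : Fin 3 → Fin (n + 1) → K) i j)) =
          ![fun l => algebraMap K (AlgebraicClosure K) (x l),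
          fun l => algebraMap K (AlgebraicClosure K) (b₁ l),
          fun l => algebraMap K (AlgebraicClosure K) (c₁ l)] := by
        funext i
        fin_cases i <;> rfl
      rwa [h2] at h1
    have key := hΨ (i, p, q) ⟨hqp, by change i + (2 * d - i) = 2 * d; omega⟩ (AlgebraicClosure K)
      (fun M => algebraMap k (AlgebraicClosure K) (c M))
      (fun l => algebraMap K (AlgebraicClosure K) (x l))
      (fun l => algebraMap K (AlgebraicClosure K) (b₁ l))
      (fun l => algebraMap K (AlgebraicClosure K) (c₁ l)) α β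
      (by change algebraMap K (AlgebraicClosure K) (x p) = 1; rw [hp, map_one])
      (by change algebraMap K (AlgebraicClosure K) (b₁ p) = 0; rw [hbp, map_zero])
      (by change algebraMap K (AlgebraicClosure K) (b₁ q) = 1; rw [hbq, map_one]) hli₂
      (by
        rw [← hmap, ← res2_map, hres, eval_map'])
    have h1 : algebraMap K (AlgebraicClosure K) (eval x (up K (∏ a ∈ s, φ a))) =
        aeval (fun l => algebraMap K (AlgebraicClosure K) (x l)) (∏ a ∈ s, φ a) := by
      rw [← eval_map']
      unfold up
      rw [MvPolynomial.map_map, ← IsScalarTower.algebraMap_eq, eval_map, ← aeval_def]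
    have h2 : aeval (fun l => algebraMap K (AlgebraicClosure K) (x l)) (∏ a ∈ s, φ a) =
        (0 : AlgebraicClosure K) := by
      rw [map_prod]
      refine Finset.prod_eq_zero (i := (i, p, q)) ((hs _).2 ⟨?_, hqp⟩) ?_
      · change i ≤ 2 * d
        omega
      · change aeval _ (hmg p (sub c (Ψ (i, p, q)))) = (0 : AlgebraicClosure K)
        rw [aeval_hmg p _ _ (by rw [hp, map_one]), aeval_sub]
        exact key
    rw [h2, map_eq_zero] at h1
    exact h1

end Pool.Agent.H70.BO.XC
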